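import Pool.Agent.Q2.PIM.Stm

set_option autoImplicit false

/-! Job STB of project PIM (helper2): the Steinberg weight. -/

namespace Pool.Agent.Q153.PIM

open Pool.Agent.Q2.PIM

section

variable {A : Type} [Ring A] {x : Fin 6 → Fin 6 → A}

lemma swp (h : Rel6 x) (i j r s : Fin 6) (w : A) : x i j * (x r s * w) =
    x r s * (x i j * w) + ((if j = r then x i s * w else 0) + (if s = i then x r j * w else 0)) := by
  have h1 := h.comm i j r s
  have h2 : x i j * x r s = x r s * x i j +
      ((if j = r then x i s else 0) + (if s = i then x r j else 0)) := by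
    rw [← h1]
    have := h.two (x r s * x i j)
    calc x i j * x r s = x i j * x r s + (x r s * x i j + x r s * x i j) := by rw [this, add_zero]
      _ = _ := by abel
  rw [← mul_assoc, h2, add_mul, mul_assoc, add_mul]
  congr 2
  · split_ifs <;> simp
  · split_ifs <;> simp

/-- the product of the `x m r`, `r` in a list -/
def dn (x : Fin 6 → Fin 6 → A) (m : Fin 6) (l : List (Fin 6)) (z : A) : A :=
  l.foldr (fun r w => x m r * w) z

/-- the product of the `x r m`, `r` in a list -/
def up (x : Fin 6 → Fin 6 → A) (m : Fin 6) (l : List (Fin 6)) (z : A) : A :=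
  l.foldr (fun r w => x r m * w) z

lemma dn_cons (m r : Fin 6) (l : List (Fin 6)) (z : A) :
    dn x m (r :: l) z = x m r * dn x m l z := rfl

lemma up_cons (m r : Fin 6) (l : List (Fin 6)) (z : A) :
    up x m (r :: l) z = x r m * up x m l z := rfl

lemma dn_zero (m : Fin 6) (l : List (Fin 6)) : dn x m l (0 : A) = 0 := by
  induction l with
  | nil => rfl
  | cons r l ih => rw [dn_cons, ih, mul_zero]

lemma kill1 (h : Rel6 x) (i j m : Fin 6) (hj : j ≠ m) (l : List (Fin 6)) (hi : i ∉ l) (z : A) :
    x i j * dn x m l z = dn x m l (x i j * z) := by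
  induction l with
  | nil => rfl
  | cons r l ih =>
    have h1 : r ≠ i := fun e => hi (by simp [e])
    have h2 : i ∉ l := fun e => hi (by simp [e])
    rw [dn_cons, swp h, if_neg hj, if_neg h1, add_zero, add_zero, ih h2, dn_cons]

lemma kill2 (h : Rel6 x) (i m : Fin 6) (him : i ≠ m) (l : List (Fin 6)) (hi : i ∉ l) (hm : m ∉ l)
    (z : A) (hz0 : x i m * z = 0) (hz : ∀ r ∈ l, x i r * z = 0) : x i m * dn x m l z = 0 := by
  induction l with
  | nil => exact hz0
  | cons r l ih =>
    have h1 : r ≠ i := fun e => hi (by simp [e])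
    have h2 : i ∉ l := fun e => hi (by simp [e])
    have h3 : r ≠ m := fun e => hm (by simp [e])
    have h4 : m ∉ l := fun e => hm (by simp [e])
    rw [dn_cons, swp h, if_pos rfl, if_neg h1, add_zero, ih h2 h4 (fun r hr => hz r (by simp [hr])),
      mul_zero, zero_add, kill1 h i r m h3 l h2, hz r (by simp), dn_zero]

lemma wtm (h : Rel6 x) (m : Fin 6) (l : List (Fin 6)) (hm : m ∉ l) (z : A) (c : ℕ)
    (hz : x m m * z = c • z) : x m m * dn x m l z = (c + l.length) • dn x m l z := by
  induction l with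
  | nil => simpa [dn] using hz
  | cons r l ih =>
    have h3 : r ≠ m := fun e => hm (by simp [e])
    have h4 : m ∉ l := fun e => hm (by simp [e])
    rw [dn_cons, swp h, if_pos rfl, if_neg h3, add_zero, ih h4, mul_smul_comm, List.length_cons,
      ← add_assoc, succ_nsmul (x m r * dn x m l z) (c + l.length)]

lemma wti (h : Rel6 x) (i m : Fin 6) (him : i ≠ m) (l : List (Fin 6)) (z : A) (c : ℕ)
    (hz : x i i * z = c • z) : x i i * dn x m l z = (c + l.count i) • dn x m l z := by
  induction l with
  | nil => simpa [dn] using hz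
  | cons r l ih =>
    rw [dn_cons, swp h, if_neg him, ih, zero_add, mul_smul_comm, List.count_cons]
    by_cases hr : r = i
    · subst hr
      simp only [beq_self_eq_true, if_true]
      rw [← add_assoc, succ_nsmul (x m r * dn x m l z)]
    · simp [hr]

lemma sqz (h : Rel6 x) (j m : Fin 6) (hjm : j ≠ m) (l : List (Fin 6)) (hm : m ∉ l) (hj : j ∈ l)
    (z : A) : x m j * dn x m l z = 0 := by
  induction l with
  | nil => simp at hj
  | cons r l ih =>
    have h3 : r ≠ m := fun e => hm (by simp [e])
    have h4 : m ∉ l := fun e => hm (by simp [e])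
    rw [dn_cons]
    by_cases hr : r = j
    · subst hr
      rw [← mul_assoc, h.sq m r (Ne.symm hjm), zero_mul]
    · have h5 : j ∈ l := by
        rcases List.mem_cons.1 hj with e | e
        · exact absurd e.symm hr
        · exact e
      rw [swp h, if_neg hjm, if_neg h3, add_zero, add_zero, ih h4 h5, mul_zero]

lemma kill3 (h : Rel6 x) (i j m : Fin 6) (hij : i < j) (hjm : j ≠ m) (l : List (Fin 6))
    (hl : l.Pairwise (· < ·)) (hm : m ∉ l) (hi : i ∈ l) (hj : j ∈ l) (z : A)
    (hz : x i j * z = 0) : x i j * dn x m l z = 0 := by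
  induction l with
  | nil => simp at hi
  | cons r l ih =>
    have h3 : r ≠ m := fun e => hm (by simp [e])
    have h4 : m ∉ l := fun e => hm (by simp [e])
    rw [List.pairwise_cons] at hl
    rw [dn_cons, swp h, if_neg hjm, zero_add]
    by_cases hr : r = i
    · subst hr
      have h6 : j ∈ l := by
        rcases List.mem_cons.1 hj with e | e
        · exact absurd e hij.ne'
        · exact e
      have h7 : r ∉ l := fun e => lt_irrefl _ (hl.1 r e)
      rw [if_pos rfl, kill1 h r j m hjm l h7, hz, dn_zero, mul_zero, zero_add,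
        sqz h j m hjm l h4 h6]
    · have h5 : i ∈ l := by
        rcases List.mem_cons.1 hi with e | e
        · exact absurd e.symm hr
        · exact e
      have h6 : j ∈ l := by
        rcases List.mem_cons.1 hj with e | e
        · exfalso
          have := hl.1 i h5
          rw [← e] at this
          exact lt_asymm hij this
        · exact e
      rw [if_neg hr, ih hl.2 h4 h5 h6, mul_zero, zero_add]

lemma up_comm (h : Rel6 x) (k m : Fin 6) (hk : k ≠ m) (l : List (Fin 6)) (hm : m ∉ l) (w : A) :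
    x k m * up x m l w = up x m l (x k m * w) := by
  induction l with
  | nil => rfl
  | cons r l ih =>
    have h3 : r ≠ m := fun e => hm (by simp [e])
    have h4 : m ∉ l := fun e => hm (by simp [e])
    rw [up_cons, swp h, if_neg h3.symm, if_neg hk.symm, add_zero, add_zero, ih h4, up_cons]

/-- the parity condition -/
def good (c : Fin 6 → ℕ) (m : Fin 6) : List (Fin 6) → Prop
  | [] => True
  | k :: l => (c k + (c m + l.length)) % 2 = 1 ∧ good c m l

lemma odd_smul (h : Rel6 x) (n : ℕ) (hn : n % 2 = 1) (w : A) : n • w = w := by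
  have h1 : n = 2 * (n / 2) + 1 := by omega
  rw [h1, add_smul, one_smul, mul_comm, mul_smul, two_smul, h.two, smul_zero, zero_add]

lemma up_dn (h : Rel6 x) (c : Fin 6 → ℕ) (m : Fin 6) (l : List (Fin 6))
    (hl : l.Pairwise (· < ·)) (hm : m ∉ l) (z : A) (hz1 : ∀ i ∈ l, x i m * z = 0)
    (hz2 : ∀ i ∈ l, ∀ j ∈ l, i < j → x i j * z = 0) (hz3 : ∀ i ∈ l, x i i * z = c i • z)
    (hz4 : x m m * z = c m • z) (hg : good c m l) : up x m l (dn x m l z) = z := by
  induction l with
  | nil => rfl
  | cons k l ih =>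
    have h3 : k ≠ m := fun e => hm (by simp [e])
    have h4 : m ∉ l := fun e => hm (by simp [e])
    rw [List.pairwise_cons] at hl
    have h7 : k ∉ l := fun e => lt_irrefl _ (hl.1 k e)
    rw [up_cons, up_comm h k m h3 l h4, dn_cons, swp h, if_pos rfl, if_pos rfl,
      kill2 h k m h3 l h7 h4 z (hz1 k (by simp))
        (fun r hr => hz2 k (by simp) r (by simp [hr]) (hl.1 r hr)),
      mul_zero, zero_add, wti h k m h3 l z (c k) (hz3 k (by simp)), List.count_eq_zero_of_not_mem h7,
      add_zero, wtm h m l h4 z (c m) hz4, ← add_smul, odd_smul h _ hg.1]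
    exact ih hl.2 h4 (fun i hi => hz1 i (by simp [hi]))
      (fun i hi j hj => hz2 i (by simp [hi]) j (by simp [hj])) (fun i hi => hz3 i (by simp [hi])) hg.2

/-- a highest weight vector for `gl_m` -/
def St (x : Fin 6 → Fin 6 → A) (c : Fin 6 → ℕ) (l : List (Fin 6)) (z : A) : Prop :=
  (∀ i ∈ l, ∀ j ∈ l, i < j → x i j * z = 0) ∧ ∀ i ∈ l, x i i * z = c i • z

lemma St_dn (h : Rel6 x) (c c' : Fin 6 → ℕ) (m : Fin 6) (l : List (Fin 6))
    (hl : l.Pairwise (· < ·)) (hm : ∀ i ∈ l, i < m) (z : A)
    (hz : St x c (l ++ [m]) z) (hg : good c m l) (hc : ∀ i ∈ l, (c i + 1) % 2 = c' i % 2) :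
    up x m l (dn x m l z) = z ∧ St x c' l (dn x m l z) := by
  have hm' : m ∉ l := fun e => lt_irrefl _ (hm m e)
  constructor
  · exact up_dn h c m l hl hm' z (fun i hi => hz.1 i (by simp [hi]) m (by simp) (hm i hi))
      (fun i hi j hj => hz.1 i (by simp [hi]) j (by simp [hj])) (fun i hi => hz.2 i (by simp [hi]))
      (hz.2 m (by simp)) hg
  · constructor
    · intro i hi j hj hij
      exact kill3 h i j m hij (hm j hj).ne l hl hm' hi hj z
        (hz.1 i (by simp [hi]) j (by simp [hj]) hij)
    · intro i hi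
      have h1 := wti h i m (hm i hi).ne l z (c i) (hz.2 i (by simp [hi]))
      have h2 : l.count i = 1 := List.count_eq_one_of_mem (hl.imp (fun h => h.ne)) hi
      rw [h1, h2]
      have h3 := hc i hi
      generalize dn x m l z = w
      have h4 : ∀ n : ℕ, n • w = (n % 2) • w := by
        intro n
        conv_lhs => rw [← Nat.div_add_mod n 2]
        rw [add_smul, mul_comm, mul_smul, two_smul, h.two, smul_zero, zero_add]
      rw [h4 (c i + 1), h4 (c' i), h3]

end

theorem t_STB : S_STB := by
  intro A _ x h y hE h0 h1 h2 h3 h4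
  have hy : St x ![0, 1, 0, 1, 0, 0] ([0, 1, 2, 3] ++ [4]) y := by
    constructor
    · intro i hi j hj hij
      apply hE (i, j)
      fin_cases i <;> fin_cases j <;> simp [E5] at hi hj hij ⊢
    · intro i hi
      fin_cases i <;> simp at hi ⊢ <;> assumption
  obtain ⟨e4, s4⟩ := St_dn h ![0, 1, 0, 1, 0, 0] ![1, 0, 1, 0, 0, 0] 4 [0, 1, 2, 3]
    (by decide) (by decide) y hy (by simp [good]) (by decide)
  obtain ⟨e3, s3⟩ := St_dn h ![1, 0, 1, 0, 0, 0] ![0, 1, 0, 0, 0, 0] 3 [0, 1, 2]
    (by decide) (by decide) _ s4 (by simp [good]) (by decide)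
  obtain ⟨e2, s2⟩ := St_dn h ![0, 1, 0, 0, 0, 0] ![1, 0, 0, 0, 0, 0] 2 [0, 1]
    (by decide) (by decide) _ s3 (by simp [good]) (by decide)
  obtain ⟨e1, -⟩ := St_dn h ![1, 0, 0, 0, 0, 0] ![0, 0, 0, 0, 0, 0] 1 [0]
    (by decide) (by decide) _ s2 (by simp [good]) (by decide)
  have hF : xp x F5 * y = dn x 1 [0] (dn x 2 [0, 1] (dn x 3 [0, 1, 2] (dn x 4 [0, 1, 2, 3] y))) := by
    simp [xp, F5, dn, mul_assoc]
  have hU : ∀ w, xp x E5 * w = up x 4 [0, 1, 2, 3] (up x 3 [0, 1, 2] (up x 2 [0, 1] (up x 1 [0] w))) := by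
    intro w
    simp [xp, E5, up, mul_assoc]
  rw [hF, hU, e1, e2, e3, e4]

end Pool.Agent.Q153.PIM
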