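import Pool.Agent.Q2.PIM.Stm2
import Pool.Agent.Q153.PIM.Stb

set_option autoImplicit false

/-! Jobs CW, WTS, YR of project PIM (helper2). -/

namespace Pool.Agent.Q153.PIM

open Pool.Agent.Q2.PIM

section

variable {A : Type} [Ring A] {x : Fin 6 → Fin 6 → A} (h : Rel6 x)

include h in
lemma two_smul' {M : Type} [AddCommGroup M] [Module A M] (v : M) : v + v = 0 := by
  have h1 : (1 : A) + 1 = 0 := h.two 1
  calc v + v = ((1 : A) + 1) • v := by rw [add_smul, one_smul]
    _ = 0 := by rw [h1, zero_smul]

include h in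
lemma bv_add {M : Type} [AddCommGroup M] [Module A M] (v : M) (a b : Bool) :
    (if a then v else 0) + (if b then v else 0) = if (a ^^ b) then v else 0 := by
  cases a <;> cases b <;> simp [two_smul' h v]

include h in
lemma pair_smul {M : Type} [AddCommGroup M] [Module A M] (μ : Fin 6 → Bool) (v : M)
    (hl : Low x v) (hw : Wt x μ v) (i j : Fin 6) (hij : i < j) :
    (x i i * x j j + x j i * x i j) • v =
      if ((μ i && μ j) ^^ (μ i ^^ μ j)) then v else 0 := by
  have h1 := h.comm i j j i
  rw [if_pos rfl, if_pos rfl] at h1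
  have h2 : x j i * x i j = (x i i + x j j) + x i j * x j i := by
    rw [← h1]
    have := h.two (x i j * x j i)
    calc x j i * x i j = (x i j * x j i + x i j * x j i) + x j i * x i j := by rw [this, zero_add]
      _ = _ := by abel
  rw [h2, add_smul, add_smul, add_smul, mul_smul, mul_smul, hl j i hij, smul_zero, add_zero,
    hw i, hw j, ← bv_add h, ← bv_add h]
  congr 1
  cases h3 : μ j
  · simp
  · simp [hw i]

theorem t_CW : S_CW := by
  intro A _ x h M _ _ μ v hl hw
  have key : ∀ l : List (Fin 6 × Fin 6), (∀ p ∈ l, p.1 < p.2) →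
      (l.map fun p => x p.1 p.1 * x p.2 p.2 + x p.2 p.1 * x p.1 p.2).sum • v =
      if ((l.map fun p => (μ p.1 && μ p.2) ^^ (μ p.1 ^^ μ p.2)).foldr xor false) then v else 0 := by
    intro l hlt
    induction l with
    | nil => simp
    | cons p l ih =>
      rw [List.map_cons, List.sum_cons, List.map_cons, List.foldr_cons, add_smul,
        pair_smul h μ v hl hw p.1 p.2 (hlt p (by simp)), ih (fun q hq => hlt q (by simp [hq])),
        bv_add h]
  have hPP : ∀ p ∈ PP, p.1 < p.2 := by decide
  rw [cas, add_smul, key PP hPP, add_smul, add_smul, hw 1, hw 3, hw 5, bv_add h, bv_add h, bv_add h]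
  rfl

/-- the weight of a product -/
lemma xp_wt (h : Rel6 x) (j : Fin 6) (l : List Pr) (w : A) (b : Bool)
    (hw : x j j * w = if b then w else 0) :
    x j j * (xp x l * w) = if (cnt j l ^^ b) then xp x l * w else 0 := by
  rw [← mul_assoc, diag_xp h, add_mul, mul_assoc, hw, ← bv_add (A := A) (x := x) h, add_comm]
  congr 1
  · split_ifs <;> simp
  · split_ifs <;> simp

/-- the weights -/
def wt (l : List Pr) : Fin 6 → Bool := fun j => true ^^ cnt j l ^^ decide (j = 1 ∨ j = 3)

theorem t_WTS : S_WTS := by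
  intro A _ x h y hy
  refine ⟨((C5.sublists.map wt).toFinset.filter fun μ => cv μ = false),
    ((C5.sublists.map wt).toFinset.filter fun μ => cv μ = true), by decide, by decide,
    fun μ hμ => (Finset.mem_filter.1 hμ).2, fun μ hμ => (Finset.mem_filter.1 hμ).2, ?_⟩
  intro μ hμ
  have h1 : μ ∈ (C5.sublists.map wt).toFinset := by
    rcases Finset.mem_union.1 hμ with h2 | h2
    · exact (Finset.mem_filter.1 h2).1
    · exact (Finset.mem_filter.1 h2).1
  rw [List.mem_toFinset, List.mem_map] at h1
  obtain ⟨l, hl, rfl⟩ := h1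
  refine ⟨l, List.mem_sublists.1 hl, ?_⟩
  intro j
  have hN : cnt j N15 = true := by
    revert j
    decide
  have h2 : x j j * y = if (decide (j = 1 ∨ j = 3)) then y else 0 := by
    rw [hy]
    simp only [decide_eq_true_eq]
  have h3 := xp_wt h j N15 (xp x l * y) _ (xp_wt h j l y _ h2)
  rw [hN] at h3
  rw [smul_eq_mul, h3, wt, Bool.xor_assoc]

include h in
lemma dcomm (i j : Fin 6) : x i i * x j j = x j j * x i i := by
  by_cases hij : i = j
  · rw [hij]
  · have h1 := h.comm i i j j
    rw [if_neg hij, if_neg (Ne.symm hij), add_zero] at h1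
    have h2 := h.two (x j j * x i i)
    exact add_right_cancel (h1.trans h2.symm)

include h in
lemma d0 (i : Fin 6) : x i i * (1 + x i i) = 0 := by
  rw [mul_add, mul_one, h.idem, h.two]

include h in
lemma dcomm1 (i j : Fin 6) : x i i * (1 + x j j) = (1 + x j j) * x i i := by
  rw [mul_add, add_mul, dcomm h i j, one_mul, mul_one]

include h in
lemma eps_wt (i : Fin 6) : x i i * eps x = if (i = 1 ∨ i = 3) then eps x else 0 := by
  have e0 : x 0 0 * eps x = 0 := by
    unfold eps
    simp only [← mul_assoc]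
    rw [d0 h]
    simp
  have e1 : x 1 1 * eps x = eps x := by
    unfold eps
    simp only [← mul_assoc]
    rw [dcomm1 h 1 0, mul_assoc (1 + x 0 0) (x 1 1) (x 1 1), h.idem]
  have e2 : x 2 2 * eps x = 0 := by
    unfold eps
    simp only [← mul_assoc]
    rw [dcomm1 h 2 0, mul_assoc (1 + x 0 0) (x 2 2) (x 1 1), dcomm h 2 1,
      ← mul_assoc, mul_assoc _ (x 2 2) (1 + x 2 2), d0 h]
    simp
  have e3 : x 3 3 * eps x = eps x := by
    unfold eps
    simp only [← mul_assoc]
    rw [dcomm1 h 3 0, mul_assoc (1 + x 0 0) (x 3 3) (x 1 1), dcomm h 3 1,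
      ← mul_assoc, mul_assoc _ (x 3 3) (1 + x 2 2), dcomm1 h 3 2, ← mul_assoc,
      mul_assoc _ (x 3 3) (x 3 3), h.idem]
  have e4 : x 4 4 * eps x = 0 := by
    unfold eps
    simp only [← mul_assoc]
    rw [dcomm1 h 4 0, mul_assoc (1 + x 0 0) (x 4 4) (x 1 1), dcomm h 4 1,
      ← mul_assoc, mul_assoc _ (x 4 4) (1 + x 2 2), dcomm1 h 4 2, ← mul_assoc,
      mul_assoc _ (x 4 4) (x 3 3), dcomm h 4 3, ← mul_assoc, mul_assoc _ (x 4 4) (1 + x 4 4), d0 h]
    simp
  have e5 : x 5 5 * eps x = 0 := by
    have h1 := h.sum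
    rw [Fin.sum_univ_six] at h1
    have h2 : x 5 5 = x 0 0 + x 1 1 + x 2 2 + x 3 3 + x 4 4 := by
      have h3 := h.two (x 5 5)
      exact (add_right_cancel (h1.trans h3.symm)).symm
    rw [h2]
    simp only [add_mul, e0, e1, e2, e3, e4, zero_add, add_zero]
    exact h.two _
  fin_cases i
  · simpa using e0
  · simpa using e1
  · simpa using e2
  · simpa using e3
  · simpa using e4
  · simpa using e5

end

theorem t_YR : S_YR := by
  intro A _ x h
  have hE5 : ∀ i, cnt i E5 = false := by decide
  have hF5 : ∀ i, cnt i F5 = false := by decide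
  have hann : ∀ p ∈ E5, x p.1 p.2 * yy x = 0 := by
    intro p hp
    have h1 := lann h E5.reverse (by decide) p (List.mem_reverse.2 hp)
    rw [Xr_eq, List.reverse_reverse] at h1
    have h2 : x p.1 p.2 * xp x E5 = 0 := h1
    rw [yy, ← mul_assoc, h2, zero_mul]
  have hw : ∀ i : Fin 6, x i i * yy x = if (i = 1 ∨ i = 3) then yy x else 0 := by
    intro i
    have h1 : x i i * eps x = if (decide (i = 1 ∨ i = 3)) then eps x else 0 := by
      rw [eps_wt h]
      simp only [decide_eq_true_eq]
    have h2 := xp_wt h i E5 (eps x) _ h1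
    rw [hE5, Bool.false_xor] at h2
    simp only [decide_eq_true_eq] at h2
    exact h2
  refine ⟨hann, hw, ?_⟩
  have hF : ∀ i : Fin 6, x i i * (xp x F5 * yy x) =
      if (i = 1 ∨ i = 3) then xp x F5 * yy x else 0 := by
    intro i
    have h1 : x i i * yy x = if (decide (i = 1 ∨ i = 3)) then yy x else 0 := by
      rw [hw]
      simp only [decide_eq_true_eq]
    have h2 := xp_wt h i F5 (yy x) _ h1
    rw [hF5, Bool.false_xor] at h2
    simp only [decide_eq_true_eq] at h2
    exact h2
  have heps : eps x * (xp x F5 * yy x) = xp x F5 * yy x := by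
    generalize xp x F5 * yy x = w at hF
    have f0 : x 0 0 * w = 0 := by simpa using hF 0
    have f1 : x 1 1 * w = w := by simpa using hF 1
    have f2 : x 2 2 * w = 0 := by simpa using hF 2
    have f3 : x 3 3 * w = w := by simpa using hF 3
    have f4 : x 4 4 * w = 0 := by simpa using hF 4
    unfold eps
    simp only [mul_assoc]
    rw [add_mul 1 (x 4 4) w, one_mul, f4, add_zero, f3, add_mul 1 (x 2 2) w, one_mul, f2, add_zero,
      f1, add_mul 1 (x 0 0) w, one_mul, f0, add_zero]
  have hst := t_STB A x h (yy x) hann (by simpa using hw 0) (by simpa using hw 1)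
    (by simpa using hw 2) (by simpa using hw 3) (by simpa using hw 4)
  calc yy x * (xp x F5 * yy x) = xp x E5 * (eps x * (xp x F5 * yy x)) := by
        conv_lhs => rw [yy, mul_assoc]
        rfl
    _ = yy x := by rw [heps, hst]

end Pool.Agent.Q153.PIM
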