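import Pool.Agent.Q2.PIM.Stm

set_option autoImplicit false

/-! Job DEL of project PIM (helper2): the comultiplication of the restricted enveloping algebra. -/

noncomputable section

namespace Pool.Agent.Q153.PIM

open scoped TensorProduct
open Pool.Agent.Helper700.Red Pool.Agent.Q2.PIM

attribute [local instance 100] LieRing.ofAssociativeRing

section

variable {k g : Type} [Field k] [CharP k 2] [LieRing g] [LieAlgebra k g] (P : PMap 2 k g)

omit [CharP k 2] in
lemma two_zero [CharP k 2] {B : Type} [Ring B] [Algebra k B] (a : B) : a + a = 0 := by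
  have h : (1 : k) + 1 = 0 := CharTwo.add_self_eq_zero 1
  calc a + a = ((1 : k) + 1) • a := by rw [add_smul, one_smul]
    _ = 0 := by rw [h, zero_smul]

lemma sub_eq [CharP k 2] {B : Type} [Ring B] [Algebra k B] (a b : B) : a - b = a + b := by
  have h := two_zero (k := k) b
  rw [sub_eq_iff_eq_add, add_assoc, h, add_zero]

/-- the canonical map -/
def uu : g →ₗ[k] RedEnv P 0 :=
  (RingQuot.mkAlgHom k (RedRel P 0)).toLinearMap ∘ₗ
    (UniversalEnvelopingAlgebra.ι k : g →ₗ⁅k⁆ UniversalEnvelopingAlgebra k g).toLinearMap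

lemma uu_apply (x : g) :
    uu P x = RingQuot.mkAlgHom k (RedRel P 0) (UniversalEnvelopingAlgebra.ι k x) := rfl

lemma uu_lie (x y : g) : uu P ⁅x, y⁆ = uu P x * uu P y + uu P y * uu P x := by
  rw [uu_apply, LieHom.map_lie, LieRing.of_associative_ring_bracket, map_sub, map_mul, map_mul,
    sub_eq (k := k)]
  rfl

lemma uu_sq (x : g) : uu P (P.toFun x) = uu P x * uu P x := by
  have h := RingQuot.mkAlgHom_rel k (RedRel.rel (P := P) (χ := 0) x)
  rw [map_pow, map_add] at h
  simp only [LinearMap.zero_apply] at h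
  rw [zero_pow two_ne_zero, map_zero, map_zero, add_zero, pow_two] at h
  exact h.symm

lemma uu_univ {B : Type} [Ring B] [Algebra k B] (f : g →ₗ[k] B)
    (h1 : ∀ x y, f ⁅x, y⁆ = f x * f y + f y * f x) (h2 : ∀ x, f (P.toFun x) = f x * f x) :
    ∃ F : RedEnv P 0 →ₐ[k] B, ∀ x, F (uu P x) = f x := by
  let f' : g →ₗ⁅k⁆ B :=
    { f with
      map_lie' := by
        intro x y
        change f ⁅x, y⁆ = ⁅f x, f y⁆
        rw [h1, LieRing.of_associative_ring_bracket, sub_eq (k := k)] }
  have hf' : ∀ x, f' x = f x := fun x => rfl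
  let G := UniversalEnvelopingAlgebra.lift k f'
  have hG : ∀ x, G (UniversalEnvelopingAlgebra.ι k x) = f x := fun x =>
    UniversalEnvelopingAlgebra.lift_ι_apply k f' x
  have w : ∀ ⦃a b⦄, RedRel P 0 a b → G a = G b := by
    intro a b hab
    induction hab with
    | rel x =>
      rw [map_pow, map_add, hG, hG, h2]
      simp only [LinearMap.zero_apply]
      rw [zero_pow two_ne_zero, map_zero, map_zero, add_zero, pow_two]
  refine ⟨RingQuot.liftAlgHom k ⟨G, w⟩, fun x => ?_⟩
  rw [uu_apply, RingQuot.liftAlgHom_mkAlgHom_apply, hG]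

lemma uu_ext {B : Type} [Ring B] [Algebra k B] (F G : RedEnv P 0 →ₐ[k] B)
    (h : ∀ x, F (uu P x) = G (uu P x)) : F = G := by
  apply RingQuot.ringQuot_ext'
  apply UniversalEnvelopingAlgebra.hom_ext
  ext x
  exact h x

lemma uu_adjoin : Algebra.adjoin k (Set.range (uu P)) = ⊤ := by
  set S := Algebra.adjoin k (Set.range (uu P)) with hS
  have hmem : ∀ x, uu P x ∈ S := fun x => Algebra.subset_adjoin ⟨x, rfl⟩
  let f : g →ₗ[k] S := LinearMap.codRestrict (Subalgebra.toSubmodule S) (uu P) hmem
  have hf : ∀ x, ((f x : S) : RedEnv P 0) = uu P x := fun x => rfl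
  obtain ⟨F, hF⟩ := uu_univ P f
    (by
      intro x y
      apply Subtype.ext
      push_cast
      rw [hf, hf, hf, uu_lie])
    (by
      intro x
      apply Subtype.ext
      push_cast
      rw [hf, hf, uu_sq])
  have h1 : S.val.comp F = AlgHom.id k _ := by
    apply uu_ext
    intro x
    change ((F (uu P x) : S) : RedEnv P 0) = uu P x
    rw [hF, hf]
  rw [eq_top_iff]
  intro a _
  have h2 : S.val (F a) = a := by
    have := AlgHom.congr_fun h1 a
    exact this
  rw [← h2]
  exact (F a).2

end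

theorem t_DEL : S_DEL := by
  intro k g _ _ _ _ P
  let f : g →ₗ[k] RedEnv P 0 ⊗[k] RedEnv P 0 :=
    (TensorProduct.mk k (RedEnv P 0) (RedEnv P 0)).flip 1 ∘ₗ uu P +
      (TensorProduct.mk k (RedEnv P 0) (RedEnv P 0)) 1 ∘ₗ uu P
  have hf : ∀ x, f x = uu P x ⊗ₜ[k] 1 + 1 ⊗ₜ[k] uu P x := fun x => rfl
  obtain ⟨Δ, hΔ⟩ := uu_univ P f
    (by
      intro x y
      rw [hf, hf, hf, uu_lie]
      simp only [mul_add, add_mul, Algebra.TensorProduct.tmul_mul_tmul, mul_one, one_mul,
        TensorProduct.add_tmul, TensorProduct.tmul_add]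
      have h1 := two_zero (k := k) (uu P x ⊗ₜ[k] uu P y)
      have h2 := two_zero (k := k) (uu P y ⊗ₜ[k] uu P x)
      have h3 : ∀ a b c d e e' : RedEnv P 0 ⊗[k] RedEnv P 0, e + e = 0 → e' + e' = 0 →
          a + b + (c + d) = a + e + (e' + c) + (b + e' + (e + d)) := by
        intro a b c d e e' he he'
        calc a + b + (c + d) = a + b + (c + d) + (e + e) + (e' + e') := by
              rw [he, he', add_zero, add_zero]
          _ = _ := by abel
      apply h3 <;> assumption)
    (by
      intro x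
      rw [hf, hf, uu_sq]
      simp only [mul_add, add_mul, Algebra.TensorProduct.tmul_mul_tmul, mul_one, one_mul]
      have h1 := two_zero (k := k) (uu P x ⊗ₜ[k] uu P x)
      have h3 : ∀ a b e : RedEnv P 0 ⊗[k] RedEnv P 0, e + e = 0 →
          a + b = a + e + (e + b) := by
        intro a b e he
        calc a + b = a + b + (e + e) := by rw [he, add_zero]
          _ = _ := by abel
      apply h3
      assumption)
  refine ⟨uu P, Δ, uu_lie P, uu_sq P, uu_adjoin P, fun x => by rw [hΔ, hf], ?_⟩
  intro B _ _ f h1 h2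
  exact uu_univ P f h1 h2

end Pool.Agent.Q153.PIM
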