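import Pool.Agent.Q2.PIM.Stm2
import Pool.Agent.Q68.PIM.CHN
import Pool.Agent.Q68.PIM.WTI

set_option autoImplicit false

/-! Jobs RNG, NZ of project PIM (helper2). -/

noncomputable section

namespace Pool.Agent.Q153.PIM

open Pool.Agent.Q2.PIM

/-- the members of `N15` -/
def n15 (i : Fin 15) : Pr := N15.getD i (0, 0)

lemma n15_take : ∀ i : Fin 15, N15.take ((i : ℕ) + 1) = N15.take i ++ [n15 i] := by decide

lemma n15_ne : ∀ i : Fin 15, (n15 i).1 ≠ (n15 i).2 := by decide

lemma n15_ok : ∀ i : Fin 15, preB (N15.take i).reverse = true ∧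
    okp (n15 i) (N15.take i).reverse = true := by decide

theorem t_RNG : S_RNG := by
  intro k A _ _ _ x h M _ _ _ _ _ O hO
  let ρ : A →ₐ[k] Module.End k M := Algebra.lsmul k k M
  have hρ : ∀ a m, ρ a m = a • m := fun a m => rfl
  have hlen : N15.length = 15 := by decide
  let T : Fin 15 → Module.End k M := fun i => ρ (xe x (n15 i))
  let X : Fin 16 → Module.End k M := fun i => ρ (xp x (N15.take i))
  have h1 := Pool.Agent.Q68.PIM.t_CHN k M 15 T X ?_ ?_ ?_ ?_
  · have h2 : O.card ≤ Module.finrank k (LinearMap.range (X (Fin.last 15))) := by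
      refine Pool.Agent.Q68.PIM.t_WTI k M (fun i => ρ (x i i)) _ O ?_
      intro μ hμ
      obtain ⟨m, hm1, hm2⟩ := hO μ hμ
      refine ⟨xp x N15 • m, ⟨m, ?_⟩, hm1, fun i => ?_⟩
      · change xp x (N15.take 15) • m = _
        rw [List.take_of_length_le hlen.le]
      · rw [hρ]
        exact hm2 i
    exact (Nat.mul_le_mul_left _ h2).trans h1
  · change ρ (xp x (N15.take 0)) = 1
    rw [List.take_zero, xp_nil, map_one]
  · intro i
    change ρ (xp x (N15.take (i + 1))) = ρ (xp x (N15.take i)) * ρ _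
    rw [← map_mul]
    congr 1
    rw [n15_take, xp_append, xp_cons, xp_nil, mul_one]
  · intro i
    change ρ _ * ρ _ = 0
    rw [← map_mul]
    have h5 := h.sq _ _ (n15_ne i)
    change ρ (x _ _ * x _ _) = 0
    rw [h5, map_zero]
  · intro i
    change ρ _ * ρ _ = ρ _ * ρ _
    rw [← map_mul, ← map_mul]
    congr 1
    have h7 := com_okp h _ _ (n15_ok i).1 (n15_ok i).2
    rw [Xr_eq, List.reverse_reverse] at h7
    exact h7

section pbw

variable {k A : Type} [Field k] [Ring A] [Algebra k A]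

lemma PBW_suffix (L1 L2 : List A) (h : PBW k (L1 ++ L2)) : PBW k L2 := by
  induction L1 with
  | nil => exact h
  | cons a L1 ih => exact ih h.1

lemma W_cons_mono (a : A) (L : List A) : W k L ≤ W k (a :: L) := by
  apply Submodule.span_mono
  rintro _ ⟨l, hl, rfl⟩
  exact ⟨l, hl.cons a, rfl⟩

lemma mul_mem_W (a : A) (L : List A) (w : A) (hw : w ∈ W k L) : a * w ∈ W k (a :: L) := by
  induction hw using Submodule.span_induction with
  | mem b hb =>
    obtain ⟨l, hl, rfl⟩ := hb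
    refine Submodule.subset_span ⟨a :: l, hl.cons_cons a, ?_⟩
    rw [List.prod_cons]
  | zero => rw [mul_zero]; exact Submodule.zero_mem _
  | add b c _ _ hb hc => rw [mul_add]; exact Submodule.add_mem _ hb hc
  | smul c b _ hb => rw [mul_smul_comm]; exact Submodule.smul_mem _ _ hb

lemma mul_ne (a : A) (L : List A) (h : PBW k (a :: L)) (w : A) (hw : w ∈ W k L) (h0 : w ≠ 0) :
    a * w ∈ W k (a :: L) ∧ a * w ≠ 0 := by
  refine ⟨mul_mem_W a L w hw, fun h1 => h0 ?_⟩
  exact (h.2 0 (Submodule.zero_mem _) w hw (by rw [h1, zero_add])).2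

lemma one_add_mul_ne (a : A) (L : List A) (h : PBW k (a :: L)) (w : A) (hw : w ∈ W k L)
    (h0 : w ≠ 0) : (1 + a) * w ∈ W k (a :: L) ∧ (1 + a) * w ≠ 0 := by
  rw [add_mul, one_mul]
  refine ⟨Submodule.add_mem _ (W_cons_mono a L hw) (mul_mem_W a L w hw), fun h1 => h0 ?_⟩
  exact (h.2 w hw w hw h1).1

lemma sub_mul_ne (L1 L2 : List A) (h : PBW k (L1 ++ L2)) (w : A) (hw : w ∈ W k L2) (h0 : w ≠ 0)
    (s : List A) (hs : s.Sublist L1) : s.prod * w ∈ W k (L1 ++ L2) ∧ s.prod * w ≠ 0 := by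
  induction hs with
  | slnil =>
    rw [List.prod_nil, one_mul]
    exact ⟨hw, h0⟩
  | @cons s L1 a hs ih =>
    obtain ⟨h1, h2⟩ := ih h.1
    exact ⟨W_cons_mono a _ h1, h2⟩
  | @cons_cons s L1 a hs ih =>
    obtain ⟨h1, h2⟩ := ih h.1
    rw [List.prod_cons, mul_assoc]
    exact mul_ne a (L1 ++ L2) h _ h1 h2

end pbw

/-- the diagonal elements -/
def T5 : List Pr := [(0, 0), (1, 1), (2, 2), (3, 3), (4, 4)]

theorem t_NZ : S_NZ := by
  intro k A _ _ _ x henv l hl
  have hL := (henv.pbw (N15 ++ (C5 ++ (E5 ++ T5))) (by decide) (by decide)).1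
  set f : Pr → A := fun p => x p.1 p.2 with hf
  have hT : PBW k (T5.map f) := by
    rw [List.map_append, List.map_append, List.map_append] at hL
    exact PBW_suffix _ _ (PBW_suffix _ _ (PBW_suffix _ _ hL))
  have he : eps x ∈ W k (T5.map f) ∧ eps x ≠ 0 := by
    have h4 : PBW k [f (4, 4)] := PBW_suffix [f (0, 0), f (1, 1), f (2, 2), f (3, 3)] _ hT
    have h3 : PBW k [f (3, 3), f (4, 4)] := PBW_suffix [f (0, 0), f (1, 1), f (2, 2)] _ hT
    have h2 : PBW k [f (2, 2), f (3, 3), f (4, 4)] := PBW_suffix [f (0, 0), f (1, 1)] _ hT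
    have h1 : PBW k [f (1, 1), f (2, 2), f (3, 3), f (4, 4)] := PBW_suffix [f (0, 0)] _ hT
    have h5 : (1 : A) ∈ W k ([] : List A) := Submodule.subset_span ⟨[], List.Sublist.refl _, rfl⟩
    have h6 : (1 : A) ≠ 0 := h4.1
    obtain ⟨a4, b4⟩ := one_add_mul_ne (k := k) _ _ h4 1 h5 h6
    obtain ⟨a3, b3⟩ := mul_ne (k := k) _ _ h3 _ a4 b4
    obtain ⟨a2, b2⟩ := one_add_mul_ne (k := k) _ _ h2 _ a3 b3
    obtain ⟨a1, b1⟩ := mul_ne (k := k) _ _ h1 _ a2 b2
    obtain ⟨a0, b0⟩ := one_add_mul_ne (k := k) _ _ hT _ a1 b1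
    have e : eps x = (1 + f (0, 0)) * (f (1, 1) * ((1 + f (2, 2)) * (f (3, 3) *
        ((1 + f (4, 4)) * 1)))) := by
      rw [mul_one, eps]
      simp only [mul_assoc, hf]
    rw [e]
    exact ⟨a0, b0⟩
  have h7 : (N15.map f ++ (l.map f ++ E5.map f)).Sublist
      (N15.map f ++ (C5.map f ++ E5.map f)) :=
    (List.Sublist.refl _).append ((hl.map f).append (List.Sublist.refl _))
  have hL' : PBW k ((N15.map f ++ (C5.map f ++ E5.map f)) ++ T5.map f) := by
    rw [List.map_append, List.map_append, List.map_append] at hL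
    rw [List.append_assoc, List.append_assoc]
    exact hL
  have h8 := (sub_mul_ne _ _ hL' _ he.1 he.2 _ h7).2
  rw [List.prod_append, List.prod_append] at h8
  have e2 : xp x N15 * (xp x l * yy x) =
      (N15.map f).prod * ((l.map f).prod * (E5.map f).prod) * eps x := by
    change xp x N15 * (xp x l * (xp x E5 * eps x)) = xp x N15 * (xp x l * xp x E5) * eps x
    simp only [mul_assoc]
  rw [e2]
  exact h8

end Pool.Agent.Q153.PIM
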