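import Pool.Agent.Q2.PIM.Stm

set_option autoImplicit false

/-! Job SPAN of project PIM (helper2): the ordered products span. -/

noncomputable section

namespace Pool.Agent.Q153.PIM

open Pool.Agent.Q2.PIM

section

variable {k A : Type} [Field k] [Ring A] [Algebra k A] {ι : Type} (x : ι → A) (key : ι → ℕ)

/-- the span of the short ordered products -/
def Vs (k : Type) {A : Type} [Field k] [Ring A] [Algebra k A] {ι : Type} (x : ι → A) (key : ι → ℕ)
    (n : ℕ) : Submodule k A :=
  Submodule.span k {a | ∃ l : List ι, l.Pairwise (fun a b => key a < key b) ∧ l.length ≤ n ∧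
    a = (l.map x).prod}

lemma Vs_mono {m n : ℕ} (h : m ≤ n) : Vs k x key m ≤ Vs k x key n := by
  apply Submodule.span_mono
  rintro a ⟨l, h1, h2, h3⟩
  exact ⟨l, h1, h2.trans h, h3⟩

lemma mem_Vs {n : ℕ} (l : List ι) (h1 : l.Pairwise (fun a b => key a < key b))
    (h2 : l.length ≤ n) : (l.map x).prod ∈ Vs k x key n :=
  Submodule.subset_span ⟨l, h1, h2, rfl⟩

lemma step [CharP k 2] (hkey : Function.Injective key)
    (h1 : ∀ i j, x i * x j + x j * x i ∈ Submodule.span k (Set.range x))
    (h2 : ∀ i, x i * x i ∈ Submodule.span k (Set.range x)) (n : ℕ) :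
    ∀ l : List ι, l.Pairwise (fun a b => key a < key b) → l.length = n → ∀ i,
      (i ∈ l → x i * (l.map x).prod ∈ Vs k x key n) ∧
      (i ∉ l → ∃ l' : List ι, l'.Pairwise (fun a b => key a < key b) ∧
        (∀ a, a ∈ l' ↔ a = i ∨ a ∈ l) ∧ l'.length = n + 1 ∧
        x i * (l.map x).prod + (l'.map x).prod ∈ Vs k x key n) := by
  have two : ∀ a : A, a + a = 0 := by
    intro a
    have h : (1 : k) + 1 = 0 := CharTwo.add_self_eq_zero 1
    calc a + a = ((1 : k) + 1) • a := by rw [add_smul, one_smul]
      _ = 0 := by rw [h, zero_smul]
  have neg : ∀ a : A, -a = a := fun a => by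
    rw [neg_eq_iff_add_eq_zero, two]
  induction n using Nat.strong_induction_on with
  | _ n ih =>
  -- consequences of the induction hypothesis
  have ih1 : ∀ m < n, ∀ l : List ι, l.Pairwise (fun a b => key a < key b) → l.length = m → ∀ i,
      x i * (l.map x).prod ∈ Vs k x key (m + 1) := by
    intro m hm l hl hlen i
    by_cases hi : i ∈ l
    · exact Vs_mono x key (Nat.le_succ m) ((ih m hm l hl hlen i).1 hi)
    · obtain ⟨l', g1, -, g3, g4⟩ := (ih m hm l hl hlen i).2 hi
      have e : x i * (l.map x).prod =
          (x i * (l.map x).prod + (l'.map x).prod) - (l'.map x).prod := by abel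
      rw [e]
      exact Submodule.sub_mem _ (Vs_mono x key (Nat.le_succ m) g4) (mem_Vs x key l' g1 g3.le)
  have ih2 : ∀ m < n, ∀ v ∈ Vs k x key m, ∀ i, x i * v ∈ Vs k x key (m + 1) := by
    intro m hm v hv i
    induction hv using Submodule.span_induction with
    | mem a ha =>
      obtain ⟨l, g1, g2, rfl⟩ := ha
      exact Vs_mono x key (by omega) (ih1 l.length (by omega) l g1 rfl i)
    | zero => rw [mul_zero]; exact Submodule.zero_mem _
    | add a b _ _ ha hb => rw [mul_add]; exact Submodule.add_mem _ ha hb
    | smul c a _ ha => rw [mul_smul_comm]; exact Submodule.smul_mem _ _ ha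
  have ih3 : ∀ m < n, ∀ l : List ι, l.Pairwise (fun a b => key a < key b) → l.length = m →
      ∀ c ∈ Submodule.span k (Set.range x), c * (l.map x).prod ∈ Vs k x key (m + 1) := by
    intro m hm l hl hlen c hc
    induction hc using Submodule.span_induction with
    | mem a ha =>
      obtain ⟨j, rfl⟩ := ha
      exact ih1 m hm l hl hlen j
    | zero => rw [zero_mul]; exact Submodule.zero_mem _
    | add a b _ _ ha hb => rw [add_mul]; exact Submodule.add_mem _ ha hb
    | smul c a _ ha => rw [smul_mul_assoc]; exact Submodule.smul_mem _ _ ha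
  intro l hl hlen i
  match l, hl, hlen with
  | [], hl, hlen =>
    refine ⟨fun h => by simp at h, fun _ => ⟨[i], by simp, by simp, by simpa using hlen.symm, ?_⟩⟩
    simp only [List.map_nil, List.prod_nil, mul_one, List.map_cons, List.prod_cons]
    rw [two]
    exact Submodule.zero_mem _
  | s :: t, hl, hlen =>
    have hlt : t.length < n := by
      rw [← hlen]
      simp
    have hn : t.length + 1 = n := by
      rw [← hlen]
      simp
    rw [List.pairwise_cons] at hl
    obtain ⟨hs, ht⟩ := hl
    rcases lt_trichotomy (key i) (key s) with hlt' | heq | hgt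
    · have hni : i ∉ s :: t := by
        intro h
        rcases List.mem_cons.1 h with e | e
        · rw [e] at hlt'
          exact lt_irrefl _ hlt'
        · exact lt_asymm hlt' (hs i e)
      refine ⟨fun h => absurd h hni, fun _ => ⟨i :: s :: t, ?_, ?_, ?_, ?_⟩⟩
      · rw [List.pairwise_cons, List.pairwise_cons]
        refine ⟨?_, hs, ht⟩
        intro a ha
        rcases List.mem_cons.1 ha with e | e
        · rw [e]; exact hlt'
        · exact hlt'.trans (hs a e)
      · intro a
        simp
      · rw [List.length_cons, hlen]
      · rw [List.map_cons (a := i), List.prod_cons, two]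
        exact Submodule.zero_mem _
    · have hi : i = s := hkey heq
      subst hi
      refine ⟨fun _ => ?_, fun h => absurd (by simp) h⟩
      rw [List.map_cons, List.prod_cons, ← mul_assoc, ← hn]
      exact ih3 t.length hlt t ht rfl _ (h2 i)
    · have hc := ih3 t.length hlt t ht rfl _ (h1 i s)
      rw [hn] at hc
      have e1 : x i * ((s :: t).map x).prod = (x i * x s + x s * x i) * (t.map x).prod +
          x s * (x i * (t.map x).prod) := by
        rw [List.map_cons, List.prod_cons]
        have := two (x s * (x i * (t.map x).prod))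
        calc x i * (x s * (t.map x).prod)
            = x i * (x s * (t.map x).prod) +
              (x s * (x i * (t.map x).prod) + x s * (x i * (t.map x).prod)) := by
                rw [this, add_zero]
          _ = _ := by noncomm_ring
      have his : i ≠ s := fun e => by rw [e] at hgt; exact lt_irrefl _ hgt
      constructor
      · intro h
        have hit : i ∈ t := by
          rcases List.mem_cons.1 h with e | e
          · exact absurd e his
          · exact e
        rw [e1]
        refine Submodule.add_mem _ hc ?_
        have := ih2 t.length hlt _ ((ih t.length hlt t ht rfl i).1 hit) s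
        rw [hn] at this
        exact this
      · intro h
        have hit : i ∉ t := fun e => h (by simp [e])
        obtain ⟨t', g1, g2, g3, g4⟩ := (ih t.length hlt t ht rfl i).2 hit
        refine ⟨s :: t', ?_, ?_, ?_, ?_⟩
        · rw [List.pairwise_cons]
          refine ⟨?_, g1⟩
          intro a ha
          rcases (g2 a).1 ha with e | e
          · rw [e]; exact hgt
          · exact hs a e
        · intro a
          simp only [List.mem_cons, g2]
          tauto
        · rw [List.length_cons, g3, hn]
        · rw [e1, add_assoc]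
          refine Submodule.add_mem _ hc ?_
          rw [List.map_cons, List.prod_cons, ← mul_add]
          have := ih2 t.length hlt _ g4 s
          rw [hn] at this
          exact this

end

theorem t_SPAN : S_SPAN := by
  intro k A _ _ _ _ ι _ _ x h1 h2 h3 L hL hmem
  set key : ι → ℕ := fun i => L.idxOf i with hkey
  have hinj : Function.Injective key := by
    intro i j hij
    exact (List.idxOf_inj (hmem i)).1 hij
  have hLs : L.Pairwise (fun a b => key a < key b) := by
    rw [List.pairwise_iff_getElem]
    intro i j hi hj hij
    simp only [hkey, hL.idxOf_getElem]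
    exact hij
  have hsub : ∀ n, Vs k x key n ≤ W k (L.map x) := by
    intro n
    apply Submodule.span_le.2
    rintro a ⟨l, g1, -, rfl⟩
    refine Submodule.subset_span ⟨l.map x, ?_, rfl⟩
    apply List.Sublist.map
    have : Std.Antisymm (fun a b => key a < key b) :=
      ⟨fun a b h h' => absurd h' (lt_asymm h)⟩
    have : Std.Irrefl (fun a b => key a < key b) := ⟨fun a => lt_irrefl _⟩
    exact List.sublist_of_subperm_of_pairwise (r := fun a b => key a < key b)
      (List.subperm_of_subset g1.nodup (fun a _ => hmem a)) g1 hLs
  have hstep := step (k := k) x key hinj h1 h2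
  -- the union
  have hmul : ∀ i, ∀ n, ∀ v ∈ Vs k x key n, x i * v ∈ Vs k x key (n + 1) := by
    intro i n v hv
    induction hv using Submodule.span_induction with
    | mem a ha =>
      obtain ⟨l, g1, g2, rfl⟩ := ha
      by_cases hi : i ∈ l
      · exact Vs_mono x key (by omega) ((hstep l.length l g1 rfl i).1 hi)
      · obtain ⟨l', f1, -, f3, f4⟩ := (hstep l.length l g1 rfl i).2 hi
        have e : x i * (l.map x).prod =
            (x i * (l.map x).prod + (l'.map x).prod) - (l'.map x).prod := by abel
        rw [e]
        exact Submodule.sub_mem _ (Vs_mono x key (by omega) f4) (mem_Vs x key l' f1 (by omega))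
    | zero => rw [mul_zero]; exact Submodule.zero_mem _
    | add a b _ _ ha hb => rw [mul_add]; exact Submodule.add_mem _ ha hb
    | smul c a _ ha => rw [mul_smul_comm]; exact Submodule.smul_mem _ _ ha
  have hall : ∀ a : A, ∀ n, ∀ v ∈ Vs k x key n, ∃ m, a * v ∈ Vs k x key m := by
    intro a
    have ha : a ∈ Algebra.adjoin k (Set.range x) := by rw [h3]; trivial
    induction ha using Algebra.adjoin_induction with
    | mem a ha =>
      obtain ⟨i, rfl⟩ := ha
      intro n v hv
      exact ⟨n + 1, hmul i n v hv⟩
    | algebraMap r =>
      intro n v hv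
      refine ⟨n, ?_⟩
      rw [← Algebra.smul_def]
      exact Submodule.smul_mem _ _ hv
    | add a b _ _ ha hb =>
      intro n v hv
      obtain ⟨m1, g1⟩ := ha n v hv
      obtain ⟨m2, g2⟩ := hb n v hv
      refine ⟨max m1 m2, ?_⟩
      rw [add_mul]
      exact Submodule.add_mem _ (Vs_mono x key (le_max_left _ _) g1)
        (Vs_mono x key (le_max_right _ _) g2)
    | mul a b _ _ ha hb =>
      intro n v hv
      obtain ⟨m1, g1⟩ := hb n v hv
      obtain ⟨m2, g2⟩ := ha m1 _ g1
      exact ⟨m2, by rw [mul_assoc]; exact g2⟩
  rw [eq_top_iff]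
  intro a _
  have h0 : (1 : A) ∈ Vs k x key 0 := by
    have := mem_Vs (k := k) (n := 0) x key [] (by simp) (by simp)
    simpa using this
  obtain ⟨m, hm⟩ := hall a 0 1 h0
  rw [mul_one] at hm
  exact hsub m hm

end Pool.Agent.Q153.PIM
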